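import Pool.Agent.H959Z.HH8

set_option autoImplicit false

universe u

/-- The refined containment for all fat point schemes in the projective plane over a field of
characteristic zero. -/
theorem Pool.Agent.Results.MP_cc5cd7_ag.APlaneCharZero.result :
    ∀ (K : Type u) [Field K] [CharZero K] (s : ℕ)
      (P : Fin s → Projectivization K (Fin 3 → K)), Function.Injective P →
      ∀ (μ : Fin s → ℕ), (∃ i, 1 ≤ μ i) → ∀ r m : ℕ, 1 ≤ r → 1 ≤ m →
      (⨅ i, Ideal.span {F : MvPolynomial (Fin 3) K |
          (∃ d, F.IsHomogeneous d) ∧ MvPolynomial.eval (P i).rep F = 0} ^ (r * (m + 1) * μ i)) ≤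
        Ideal.span (Set.range (fun i : Fin 3 => (MvPolynomial.X i : MvPolynomial (Fin 3) K))) ^ r *
          (⨅ i, Ideal.span {F : MvPolynomial (Fin 3) K |
            (∃ d, F.IsHomogeneous d) ∧ MvPolynomial.eval (P i).rep F = 0} ^ (m * μ i)) ^ r :=
  fun _ _ _ _ P hP μ hμ r m hr hm => Pool.Agent.H959Z.HH.proj_final P hP μ hμ r m hr hm
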